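import Pool.Agent.H51.ERA.Stmts
import Pool.Agent.H51.ERA.Base

set_option autoImplicit false

namespace Pool.Agent.H25.ERA

open Pool.Agent.H51.ERA

/-- LEN: length of a cut without determined node. -/
theorem LEN_thm (hCOV : COVStmt) (hOPN : OPNStmt) (_hWLEN : WLENStmt) : LENStmt := by
  classical
  intro N Q _ L rho sys hL s t b q K hs hq hK hUnd
  have hne := sys.ne q K hq
  have hOPN' := hOPN N Q L rho sys hL s t b q K hs hq hK hUnd
  -- the positions
  set X : Finset ℕ := (Finset.range K.length).image (fun j => ps K (j + 1)) with hX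
  have hXcard : X.card = K.length := by
    rw [hX, Finset.card_image_of_injOn, Finset.card_range]
    intro j hj j' hj' hjj
    simp only [Finset.coe_range, Set.mem_Iio] at hj hj'
    simp only at hjj
    rcases lt_trichotomy j j' with h | h | h
    · have := ps_lt K hne (show j + 1 < j' + 1 by omega) (by omega)
      omega
    · exact h
    · have := ps_lt K hne (show j' + 1 < j + 1 by omega) (by omega)
      omega
  have hXle : ∀ x ∈ X, x ≤ (WW s t b).length := by
    intro x hx
    simp only [hX, Finset.mem_image, Finset.mem_range] at hx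
    obtain ⟨j, _, rfl⟩ := hx
    rw [← hK]
    exact ps_le K (j + 1)
  -- the three parts
  let A : Finset ℕ := Finset.range (nn s t + 1)
  let R : ℕ × ℕ × Bool → ℕ := fun r =>
    if r.2.2 then lo s t r.1 [] + r.2.1 else hi s t r.1 [] - r.2.1
  let B : Finset ℕ :=
    ((Finset.range (kk s)) ×ˢ ((Finset.range (gg s t + 1)) ×ˢ (Finset.univ : Finset Bool))).image R
  have hA : A.card = nn s t + 1 := Finset.card_range _
  have hB : B.card ≤ kk s * (2 * (gg s t + 1)) := by
    refine le_trans Finset.card_image_le ?_
    rw [Finset.card_product, Finset.card_product, Finset.card_range, Finset.card_range,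
      Finset.card_univ, Fintype.card_bool]
    rw [Nat.mul_comm (gg s t + 1) 2]
  -- third part
  let P3 : ℕ → (ℕ × List Bool) → Prop := fun x ν =>
    IsNode s t ν.1 ν.2 ∧ ν.2.length < DD t ∧ lo s t ν.1 ν.2 + gg s t < x ∧
      x + gg s t < hi s t ν.1 ν.2 ∧ ∃ c : Bool, ∃ q ≤ gg s t,
        x = lo s t ν.1 (c :: ν.2) + q ∨ x + q = hi s t ν.1 (c :: ν.2)
  let X3 : Finset ℕ := X.filter (fun x => ∃ ν, P3 x ν)
  let ch : ℕ → (ℕ × List Bool) := fun x => if h : ∃ ν, P3 x ν then h.choose else (0, [])
  have hch : ∀ x ∈ X3, P3 x (ch x) := by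
    intro x hx
    have h : ∃ ν, P3 x ν := (Finset.mem_filter.1 hx).2
    have e : ch x = h.choose := by
      simp only [ch]
      rw [dif_pos h]
    rw [e]
    exact h.choose_spec
  let O : Finset (ℕ × List Bool) := X3.image ch
  have hO : O.card ≤ Ob s t := by
    apply hOPN'
    intro ν hν
    obtain ⟨x, hx, rfl⟩ := Finset.mem_image.1 hν
    obtain ⟨h1, h2, h3, h4, _⟩ := hch x hx
    refine ⟨h1, h2, ?_⟩
    have hxX : x ∈ X := (Finset.mem_filter.1 hx).1
    simp only [hX, Finset.mem_image, Finset.mem_range] at hxX
    obtain ⟨j, hj, hjx⟩ := hxX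
    refine ⟨j + 1, by omega, ?_, ?_⟩
    · rw [hjx]; exact h3
    · rw [hjx]; exact h4
  let T : (ℕ × List Bool) → Bool × ℕ × Bool → ℕ := fun ν r =>
    if r.2.2 then lo s t ν.1 (r.1 :: ν.2) + r.2.1 else hi s t ν.1 (r.1 :: ν.2) - r.2.1
  let C : Finset ℕ := O.biUnion (fun ν =>
    ((Finset.univ : Finset Bool) ×ˢ ((Finset.range (gg s t + 1)) ×ˢ
      (Finset.univ : Finset Bool))).image (T ν))
  have hC : C.card ≤ Ob s t * (4 * (gg s t + 1)) := by
    refine le_trans (Finset.card_biUnion_le_card_mul O _ (4 * (gg s t + 1)) ?_)
      (Nat.mul_le_mul_right _ hO)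
    intro ν _
    refine le_trans Finset.card_image_le ?_
    rw [Finset.card_product, Finset.card_product, Finset.card_range,
      Finset.card_univ, Fintype.card_bool]
    omega
  have hsub : X ⊆ (A ∪ B) ∪ C := by
    intro x hx
    rcases hCOV s t b x (hXle x hx) with h | h | h
    · apply Finset.mem_union_left
      apply Finset.mem_union_left
      exact Finset.mem_range.2 (by omega)
    · obtain ⟨i, hi', q', hq', h⟩ := h
      apply Finset.mem_union_left
      apply Finset.mem_union_right
      rcases h with h | h
      · refine Finset.mem_image.2 ⟨(i, q', true), ?_, ?_⟩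
        · simp only [Finset.mem_product, Finset.mem_range, Finset.mem_univ, and_true]
          exact ⟨hi', by omega⟩
        · simp only [R, if_true]
          exact h.symm
      · refine Finset.mem_image.2 ⟨(i, q', false), ?_, ?_⟩
        · simp only [Finset.mem_product, Finset.mem_range, Finset.mem_univ, and_true]
          exact ⟨hi', by omega⟩
        · simp only [R]
          rw [if_neg (by simp)]
          omega
    · obtain ⟨i, p, c, h1, h2, h3, h4, q', hq', h⟩ := h
      apply Finset.mem_union_right
      have hx3 : x ∈ X3 := Finset.mem_filter.2 ⟨hx, (i, p), h1, h2, h3, h4, c, q', hq', h⟩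
      obtain ⟨_, _, _, _, c', q'', hq'', h'⟩ := hch x hx3
      refine Finset.mem_biUnion.2 ⟨ch x, Finset.mem_image_of_mem _ hx3, ?_⟩
      rcases h' with h' | h'
      · refine Finset.mem_image.2 ⟨(c', q'', true), ?_, ?_⟩
        · simp only [Finset.mem_product, Finset.mem_range, Finset.mem_univ, and_true, true_and]
          omega
        · simp only [T, if_true]
          exact h'.symm
      · refine Finset.mem_image.2 ⟨(c', q'', false), ?_, ?_⟩
        · simp only [Finset.mem_product, Finset.mem_range, Finset.mem_univ, and_true, true_and]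
          omega
        · simp only [T]
          rw [if_neg (by simp)]
          omega
  have h1 := Finset.card_le_card hsub
  have h2 := Finset.card_union_le (A ∪ B) C
  have h3 := Finset.card_union_le A B
  unfold Mb
  omega

end Pool.Agent.H25.ERA
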